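import Mathlib

/-!
# MP_33355d_nt : cycles of the `5x+1` map. Definitions and the harmonic inequality.
-/

namespace Pool.Agent.Helper21.FX

/-- the `5x+1` map -/
def T5 (n : ℤ) : ℤ := if n % 2 = 0 then n / 2 else (5 * n + 1) / 2

/-- `c` is a periodic orbit of the `5x+1` map -/
def IsCycle (c : Finset ℤ) : Prop :=
  ∃ n : ℤ, (∃ p : ℕ, 0 < p ∧ T5^[p] n = n) ∧ ∀ m, m ∈ c ↔ ∃ k : ℕ, T5^[k] n = m

/-- the number of odd elements -/
def odds (c : Finset ℤ) : ℕ := (c.filter fun n => n % 2 = 1).card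

/-- `|L log 2 - K log 5|`, where `c` has `L` elements, `K` of them odd -/
noncomputable def gap (c : Finset ℤ) : ℝ := |(c.card : ℝ) * Real.log 2 - (odds c : ℝ) * Real.log 5|

theorem iter_period {n : ℤ} {p : ℕ} (hp : T5^[p] n = n) (k j : ℕ) :
    T5^[k + p * j] n = T5^[k] n := by
  rw [Function.iterate_add_apply]
  congr 1
  induction j with
  | zero => simp
  | succ j ih => rw [Nat.mul_succ, Function.iterate_add_apply, hp, ih]

theorem cyc_base {c : Finset ℤ} (hc : IsCycle c) {m : ℤ} (hm : m ∈ c) :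
    ∀ x, x ∈ c ↔ ∃ k : ℕ, T5^[k] m = x := by
  obtain ⟨n, ⟨p, hp, hpn⟩, hn⟩ := hc
  obtain ⟨k, hk⟩ := (hn m).1 hm
  intro x
  rw [hn]
  constructor
  · rintro ⟨j, hj⟩
    refine ⟨j + p * k - k, ?_⟩
    have h1 : k ≤ p * k := Nat.le_mul_of_pos_left k hp
    rw [← hk, ← Function.iterate_add_apply]
    have h2 : j + p * k - k + k = j + p * k := by omega
    rw [h2, iter_period hpn, hj]
  · rintro ⟨j, hj⟩
    exact ⟨j + k, by rw [Function.iterate_add_apply, hk, hj]⟩

theorem cyc_disj {c d : Finset ℤ} (hc : IsCycle c) (hd : IsCycle d) {m : ℤ} (h1 : m ∈ c)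
    (h2 : m ∈ d) : c = d := by
  ext x
  rw [cyc_base hc h1, cyc_base hd h2]

theorem cyc_image {c : Finset ℤ} (hc : IsCycle c) : c.image T5 = c := by
  obtain ⟨n, ⟨p, hp, hpn⟩, hn⟩ := hc
  ext x
  rw [Finset.mem_image, hn]
  constructor
  · rintro ⟨y, hy, rfl⟩
    obtain ⟨k, rfl⟩ := (hn y).1 hy
    exact ⟨k + 1, by rw [Function.iterate_succ_apply']⟩
  · rintro ⟨k, rfl⟩
    refine ⟨T5^[k + p - 1] n, (hn _).2 ⟨_, rfl⟩, ?_⟩
    rw [← Function.iterate_succ_apply' T5]
    have h1 : (k + p - 1).succ = k + p * 1 := by omega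
    rw [h1, iter_period hpn]

theorem cyc_inj {c : Finset ℤ} (hc : IsCycle c) : Set.InjOn T5 (c : Set ℤ) := by
  rw [← Finset.card_image_iff, cyc_image hc]

theorem T5_zero : T5 0 = 0 := by simp [T5]

theorem iter_zero (k : ℕ) : T5^[k] 0 = 0 := Function.iterate_fixed T5_zero k

theorem cyc_zero {c : Finset ℤ} (hc : IsCycle c) (h0 : c ≠ {0}) : (0 : ℤ) ∉ c := by
  intro h
  apply h0
  ext x
  rw [cyc_base hc h, Finset.mem_singleton]
  constructor
  · rintro ⟨k, rfl⟩
    exact iter_zero k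
  · rintro rfl
    exact ⟨0, rfl⟩

theorem cyc_nonempty {c : Finset ℤ} (hc : IsCycle c) : c.Nonempty := by
  obtain ⟨n, _, hn⟩ := hc
  exact ⟨n, (hn n).2 ⟨0, rfl⟩⟩

theorem isCycle_zero : IsCycle {0} := by
  refine ⟨0, ⟨1, one_pos, T5_zero⟩, fun m => ?_⟩
  rw [Finset.mem_singleton]
  constructor
  · rintro rfl
    exact ⟨0, rfl⟩
  · rintro ⟨k, rfl⟩
    exact iter_zero k

theorem log_T5 {n : ℤ} (hn : n ≠ 0) :
    Real.log |((T5 n : ℤ) : ℝ)| = Real.log |(n : ℝ)| - Real.log 2 +
      (if n % 2 = 1 then Real.log 5 + Real.log (1 + 1 / (5 * (n : ℝ))) else 0) := by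
  have hn' : (n : ℝ) ≠ 0 := by exact_mod_cast hn
  have hn1 : (1 : ℝ) ≤ |(n : ℝ)| := by
    have := Int.one_le_abs hn
    exact_mod_cast this
  rcases Int.emod_two_eq_zero_or_one n with h | h
  · rw [if_neg (by omega), add_zero]
    have h1 : ((T5 n : ℤ) : ℝ) = (n : ℝ) / 2 := by
      have h2 : T5 n * 2 = n := by
        rw [T5, if_pos h]
        omega
      have h3 : ((T5 n : ℤ) : ℝ) * 2 = n := by exact_mod_cast h2
      linarith
    rw [h1, abs_div, Real.log_div (by positivity) (by norm_num)]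
    norm_num
  · rw [if_pos h]
    have h1 : ((T5 n : ℤ) : ℝ) = (5 * n + 1) / 2 := by
      have h2 : T5 n * 2 = 5 * n + 1 := by
        rw [T5, if_neg (by omega)]
        omega
      have h3 : ((T5 n : ℤ) : ℝ) * 2 = 5 * n + 1 := by exact_mod_cast h2
      linarith
    have h5 : 0 < 1 + 1 / (5 * (n : ℝ)) := by
      have h6 : |1 / (5 * (n : ℝ))| ≤ 1 / 5 := by
        rw [abs_div, abs_one, abs_mul]
        rw [div_le_div_iff₀ (by positivity) (by norm_num)]
        norm_num
        linarith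
      have := neg_abs_le (1 / (5 * (n : ℝ)))
      linarith
    have h4 : ((T5 n : ℤ) : ℝ) = (n : ℝ) * (5 * (1 + 1 / (5 * n))) / 2 := by
      rw [h1]
      field_simp
    rw [h4, abs_div, abs_mul, abs_of_pos (by positivity : 0 < 5 * (1 + 1 / (5 * (n : ℝ)))),
      Real.log_div (by positivity) (by norm_num), Real.log_mul (by positivity) (by positivity),
      Real.log_mul (by norm_num) (by positivity)]
    norm_num
    ring

theorem cyc_identity {c : Finset ℤ} (hc : IsCycle c) (h0 : c ≠ {0}) :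
    (c.card : ℝ) * Real.log 2 - (odds c : ℝ) * Real.log 5 =
      ∑ n ∈ c.filter (fun n => n % 2 = 1), Real.log (1 + 1 / (5 * (n : ℝ))) := by
  have hz := cyc_zero hc h0
  have h1 : ∑ n ∈ c, Real.log |((T5 n : ℤ) : ℝ)| = ∑ n ∈ c, Real.log |(n : ℝ)| := by
    conv_rhs => rw [← cyc_image hc]
    rw [Finset.sum_image (cyc_inj hc)]
  have h2 : ∑ n ∈ c, Real.log |((T5 n : ℤ) : ℝ)| = ∑ n ∈ c, (Real.log |(n : ℝ)| - Real.log 2 +
      (if n % 2 = 1 then Real.log 5 + Real.log (1 + 1 / (5 * (n : ℝ))) else 0)) :=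
    Finset.sum_congr rfl fun n hn => log_T5 fun h => hz (h ▸ hn)
  rw [h1, Finset.sum_add_distrib, Finset.sum_sub_distrib, Finset.sum_const, nsmul_eq_mul,
    ← Finset.sum_filter, Finset.sum_add_distrib, Finset.sum_const, nsmul_eq_mul] at h2
  unfold odds
  linarith

theorem log_small {n : ℤ} (hn : n ≠ 0) :
    |Real.log (1 + 1 / (5 * (n : ℝ)))| ≤ 1 / 4 * (1 / (n.natAbs : ℝ)) := by
  have hn1 : (1 : ℝ) ≤ (n.natAbs : ℝ) := by
    have := Int.natAbs_pos.2 hn
    exact_mod_cast this
  rcases lt_or_gt_of_ne hn with h | h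
  · have h1 : (n : ℝ) = -(n.natAbs : ℝ) := by
      have : n = -(n.natAbs : ℤ) := by omega
      exact_mod_cast this
    set m : ℝ := (n.natAbs : ℝ) with hm
    rw [h1]
    have h2 : 1 + 1 / (5 * -m) = (5 * m - 1) / (5 * m) := by
      field_simp
      ring
    have h5 : 0 < 5 * m - 1 := by linarith
    rw [h2]
    have h3 : Real.log ((5 * m - 1) / (5 * m)) ≤ 0 := by
      apply Real.log_nonpos (by positivity)
      rw [div_le_one (by positivity)]
      linarith
    rw [abs_of_nonpos h3, ← Real.log_inv]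
    have h4 : ((5 * m - 1) / (5 * m))⁻¹ = 1 + 1 / (5 * m - 1) := by
      rw [inv_div]
      field_simp
      ring
    rw [h4]
    have h6 := Real.log_le_sub_one_of_pos (show 0 < 1 + 1 / (5 * m - 1) by positivity)
    have h7 : 1 / (5 * m - 1) ≤ 1 / 4 * (1 / m) := by
      have h8 : 1 / 4 * (1 / m) = 1 / (4 * m) := by
        field_simp
      rw [h8]
      apply one_div_le_one_div_of_le (by positivity)
      linarith
    linarith
  · have h1' : (n.natAbs : ℤ) = n := by omega
    have h1 : (n : ℝ) = (n.natAbs : ℝ) := by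
      rw [← Int.cast_natCast (R := ℝ), h1']
    set m : ℝ := (n.natAbs : ℝ) with hm
    rw [h1]
    have h3 : 0 ≤ Real.log (1 + 1 / (5 * m)) := by
      apply Real.log_nonneg
      have : 0 < 1 / (5 * m) := by positivity
      linarith
    rw [abs_of_nonneg h3]
    have h6 := Real.log_le_sub_one_of_pos (show 0 < 1 + 1 / (5 * m) by positivity)
    have h7 : 1 / (5 * m) ≤ 1 / 4 * (1 / m) := by
      have h8 : 1 / 4 * (1 / m) = 1 / (4 * m) := by
        field_simp
      rw [h8]
      apply one_div_le_one_div_of_le (by positivity)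
      linarith
    linarith

theorem harm_nat : ∀ (m : ℕ) (S : Finset ℕ), S.card = m → (∀ n ∈ S, 1 ≤ n) →
    ∑ n ∈ S, 1 / (n : ℝ) ≤ ((harmonic m : ℚ) : ℝ) := by
  intro m
  induction m with
  | zero =>
    intro S hS _
    rw [Finset.card_eq_zero] at hS
    subst hS
    simp
  | succ m ih =>
    intro S hS h1
    have hne : S.Nonempty := by
      rw [← Finset.card_pos]
      omega
    have hmax := S.max'_mem hne
    set M := S.max' hne with hM
    have h2 : m + 1 ≤ M := by
      have h3 : S ⊆ Finset.Icc 1 M := fun n hn =>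
        Finset.mem_Icc.2 ⟨h1 n hn, S.le_max' n hn⟩
      have h4 := Finset.card_le_card h3
      rw [hS, Nat.card_Icc] at h4
      omega
    rw [← Finset.add_sum_erase S _ hmax, harmonic_succ]
    have h5 := ih (S.erase M) (by rw [Finset.card_erase_of_mem hmax, hS]; omega)
      (fun n hn => h1 n (Finset.mem_of_mem_erase hn))
    have h6 : 1 / (M : ℝ) ≤ ((m + 1 : ℕ) : ℝ)⁻¹ := by
      rw [← one_div]
      apply one_div_le_one_div_of_le (by positivity)
      exact_mod_cast h2
    push_cast at h6 ⊢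
    linarith

theorem harm_int (S : Finset ℤ) (M : ℕ) (hS : S.card ≤ M) (h0 : (0 : ℤ) ∉ S) :
    ∑ n ∈ S, 1 / (n.natAbs : ℝ) ≤ 2 * (1 + Real.log M) := by
  have key : ∀ U : Finset ℤ, U ⊆ S → Set.InjOn Int.natAbs (U : Set ℤ) →
      ∑ n ∈ U, 1 / (n.natAbs : ℝ) ≤ 1 + Real.log M := by
    intro U hU hinj
    have h1 : ∑ n ∈ U, 1 / (n.natAbs : ℝ) = ∑ n ∈ U.image Int.natAbs, 1 / (n : ℝ) := by
      rw [Finset.sum_image hinj]
    rw [h1]
    rcases U.eq_empty_or_nonempty with rfl | hne
    · have : 0 ≤ Real.log M := Real.log_natCast_nonneg M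
      simp
      linarith
    have h2 := harm_nat _ (U.image Int.natAbs) rfl (by
      intro n hn
      obtain ⟨z, hz, rfl⟩ := Finset.mem_image.1 hn
      exact Int.natAbs_pos.2 fun h => h0 (h ▸ hU hz))
    have h3 := harmonic_le_one_add_log (U.image Int.natAbs).card
    have h4 : Real.log ((U.image Int.natAbs).card : ℝ) ≤ Real.log M := by
      apply Real.log_le_log
      · have := Finset.card_pos.2 (hne.image Int.natAbs)
        exact_mod_cast this
      · have := (Finset.card_image_le (s := U) (f := Int.natAbs)).trans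
          ((Finset.card_le_card hU).trans hS)
        exact_mod_cast this
    linarith
  rw [← Finset.sum_filter_add_sum_filter_not S (fun n => 0 < n)]
  have h1 := key (S.filter fun n => 0 < n) (Finset.filter_subset _ _) (by
    intro a ha b hb hab
    simp only [Finset.coe_filter, Set.mem_ofPred_eq] at ha hb
    omega)
  have h2 := key (S.filter fun n => ¬ 0 < n) (Finset.filter_subset _ _) (by
    intro a ha b hb hab
    simp only [Finset.coe_filter, Set.mem_ofPred_eq] at ha hb
    omega)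
  linarith

theorem odds_pos {c : Finset ℤ} (hc : IsCycle c) (h0 : c ≠ {0}) : 1 ≤ odds c := by
  by_contra hcon
  have h1 : odds c = 0 := by omega
  have h2 := cyc_identity hc h0
  have h3 : c.filter (fun n => n % 2 = 1) = ∅ := by
    unfold odds at h1
    exact Finset.card_eq_zero.1 h1
  rw [h1, h3, Finset.sum_empty, Nat.cast_zero, zero_mul, sub_zero] at h2
  have h4 : 0 < (c.card : ℝ) := by
    have := Finset.card_pos.2 (cyc_nonempty hc)
    exact_mod_cast this
  have h5 : 0 < (c.card : ℝ) * Real.log 2 := mul_pos h4 (Real.log_pos (by norm_num))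
  linarith

/-- the harmonic inequality -/
theorem sum_gap (F : Finset (Finset ℤ)) (hF : ∀ c ∈ F, IsCycle c ∧ c ≠ {0}) (M : ℕ)
    (hFM : ∑ c ∈ F, odds c ≤ M) :
    ∑ c ∈ F, gap c ≤ (1 + Real.log M) / 2 := by
  classical
  have h1 : ∀ c ∈ F, gap c ≤
      ∑ n ∈ c.filter (fun n => n % 2 = 1), 1 / 4 * (1 / (n.natAbs : ℝ)) := by
    intro c hc
    unfold gap
    rw [cyc_identity (hF c hc).1 (hF c hc).2]
    refine (Finset.abs_sum_le_sum_abs _ _).trans (Finset.sum_le_sum fun n hn => ?_)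
    apply log_small
    rintro rfl
    simp at hn
  refine (Finset.sum_le_sum h1).trans ?_
  have hd : Set.PairwiseDisjoint (F : Set (Finset ℤ)) fun c => c.filter (fun n => n % 2 = 1) := by
    intro c hc d hd hcd
    rw [Function.onFun, Finset.disjoint_left]
    intro x hx hx'
    exact hcd (cyc_disj (hF c hc).1 (hF d hd).1 (Finset.mem_of_mem_filter x hx)
      (Finset.mem_of_mem_filter x hx'))
  rw [← Finset.sum_biUnion hd, ← Finset.mul_sum]
  have h2 := harm_int (F.biUnion fun c => c.filter (fun n => n % 2 = 1)) M (by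
    rw [Finset.card_biUnion hd]
    exact hFM) (by
    intro h
    rw [Finset.mem_biUnion] at h
    obtain ⟨c, _, h3⟩ := h
    simp at h3)
  linarith

end Pool.Agent.Helper21.FX
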