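import Pool.Agent.Helper21.FX.A

/-!
# MP_33355d_nt : counting the cycles and their lengths
-/

namespace Pool.Agent.Helper21.FX

/-- the cycles different from `{0}` with at most `X` odd elements and gap at least `e` -/
def Cyc (X : ℕ) (e : ℝ) : Set (Finset ℤ) := {c | IsCycle c ∧ c ≠ {0} ∧ odds c ≤ X ∧ e ≤ gap c}

/-- the set of the lengths of the cycles -/
def Len : Set ℕ := {l | ∃ c, IsCycle c ∧ c.card = l}

theorem count_finset (X : ℕ) (hX : 1 ≤ X) (e : ℝ) (he : 0 < e) (he1 : e ≤ 1)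
    (F : Finset (Finset ℤ)) (hF : ∀ c ∈ F, c ∈ Cyc X e) :
    (F.card : ℝ) ≤ Real.log (X / e) / e := by
  have hX' : (1 : ℝ) ≤ X := by exact_mod_cast hX
  rcases Nat.eq_zero_or_pos F.card with h0 | h0
  · rw [h0, Nat.cast_zero]
    apply div_nonneg _ he.le
    apply Real.log_nonneg
    rw [le_div_iff₀ he]
    linarith
  · have hN : (0 : ℝ) < F.card := by exact_mod_cast h0
    have h1 : (F.card : ℝ) * e ≤ ∑ c ∈ F, gap c := by
      rw [← nsmul_eq_mul]
      exact Finset.card_nsmul_le_sum _ _ _ fun c hc => (hF c hc).2.2.2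
    have h2 := sum_gap F (fun c hc => ⟨(hF c hc).1, (hF c hc).2.1⟩) (F.card * X) (by
      rw [← smul_eq_mul]
      exact Finset.sum_le_card_nsmul _ _ _ fun c hc => (hF c hc).2.2.1)
    have h3 : Real.log ((F.card * X : ℕ) : ℝ) = Real.log (F.card * e) + Real.log (X / e) := by
      rw [← Real.log_mul (by positivity) (by positivity)]
      congr 1
      push_cast
      field_simp
    have h4 := Real.log_le_sub_one_of_pos (show 0 < (F.card : ℝ) * e by positivity)
    rw [le_div_iff₀ he]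
    linarith

theorem cyc_count (X : ℕ) (hX : 1 ≤ X) (e : ℝ) (he : 0 < e) (he1 : e ≤ 1) :
    (Cyc X e).Finite ∧ ((Cyc X e).ncard : ℝ) ≤ Real.log (X / e) / e := by
  have hfin : (Cyc X e).Finite := by
    by_contra hcon
    obtain ⟨F, hF, hc⟩ := (Set.not_finite.1 hcon).exists_subset_card_eq
      (⌊Real.log (X / e) / e⌋₊ + 1)
    have h1 := count_finset X hX e he he1 F fun c hc => hF hc
    rw [hc] at h1
    push_cast at h1
    have := Nat.lt_floor_add_one (Real.log (X / e) / e)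
    linarith
  refine ⟨hfin, ?_⟩
  rw [Set.ncard_eq_toFinset_card _ hfin]
  exact count_finset X hX e he he1 _ fun c hc => (hfin.mem_toFinset).1 hc

/-- distance to the nearest integer -/
noncomputable def nn (x : ℝ) : ℝ := |x - round x|

/-- `log 2 / log 5` -/
noncomputable def be : ℝ := Real.log 2 / Real.log 5

theorem log5 : 1 < Real.log 5 := by
  have h1 : Real.exp 1 < 5 := Real.exp_one_lt_d9.trans (by norm_num)
  exact (Real.lt_log_iff_exp_lt (by norm_num)).2 h1

theorem gap_ge (c : Finset ℤ) : nn (c.card * be) ≤ gap c := by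
  have h5 := log5
  have h1 : gap c = Real.log 5 * |(c.card : ℝ) * be - ((odds c : ℤ) : ℝ)| := by
    unfold gap be
    rw [← abs_of_pos (show 0 < Real.log 5 by linarith), ← abs_mul,
      abs_of_pos (show 0 < Real.log 5 by linarith)]
    congr 1
    rw [mul_sub]
    push_cast
    field_simp
  rw [h1]
  have h2 := round_le ((c.card : ℝ) * be) (odds c : ℤ)
  unfold nn
  have h3 : 0 ≤ |(c.card : ℝ) * be - ((odds c : ℤ) : ℝ)| := abs_nonneg _
  nlinarith

theorem nn_pos {m : ℕ} (hm : 1 ≤ m) : 0 < nn (m * be) := by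
  rw [nn, abs_pos, sub_ne_zero]
  intro h
  have h5 := log5
  have h2 : 0 < Real.log 2 := Real.log_pos (by norm_num)
  have hm' : (1 : ℝ) ≤ m := by exact_mod_cast hm
  set z := round ((m : ℝ) * be) with hz
  have h3 : (m : ℝ) * Real.log 2 = z * Real.log 5 := by
    rw [← h, be]
    field_simp
  have hz0 : 0 ≤ z := by
    by_contra hcon
    push Not at hcon
    have h4 : (z : ℝ) < 0 := by exact_mod_cast hcon
    have h6 : 0 < (m : ℝ) * Real.log 2 := by positivity
    nlinarith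
  obtain ⟨k, hk⟩ := Int.eq_ofNat_of_zero_le hz0
  rw [hk] at h3
  rw [← Real.log_pow, Int.cast_natCast, ← Real.log_pow] at h3
  have h4 := Real.log_injOn_pos (by simp : (2 : ℝ) ^ m ∈ Set.Ioi 0) (by simp) h3
  have h6 : (2 : ℕ) ^ m = 5 ^ k := by exact_mod_cast h4
  have h7 : Even ((2 : ℕ) ^ m) := (Nat.even_pow).2 ⟨even_two, by omega⟩
  have h8 : Odd ((5 : ℕ) ^ k) := Odd.pow (by decide)
  rw [h6] at h7
  exact (Nat.not_even_iff_odd.2 h8) h7

theorem nn_sub (a b : ℕ) (hab : a ≤ b) : nn ((b - a : ℕ) * be) ≤ nn (b * be) + nn (a * be) := by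
  unfold nn
  have h1 := round_le (((b - a : ℕ) : ℝ) * be) (round ((b : ℝ) * be) - round ((a : ℝ) * be))
  refine h1.trans ?_
  have h2 : ((b - a : ℕ) : ℝ) * be - ((round ((b : ℝ) * be) - round ((a : ℝ) * be) : ℤ) : ℝ) =
      ((b : ℝ) * be - round ((b : ℝ) * be)) - ((a : ℝ) * be - round ((a : ℝ) * be)) := by
    rw [Nat.cast_sub hab]
    push_cast
    ring
  rw [h2]
  exact abs_sub _ _

/-- `q` is the denominator of a best approximation -/
def Good (q : ℕ) : Prop := 0 < q ∧ ∀ m : ℕ, 1 ≤ m → m < q → 1 / (2 * (q : ℝ)) ≤ nn (m * be)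

theorem good_inf (Q : ℕ) (hQ : 1 ≤ Q) : ∃ q, Q < q ∧ Good q := by
  obtain ⟨a, ha, hmin⟩ := Finset.exists_min_image (Finset.Icc 1 Q) (fun m : ℕ => nn (m * be))
    ⟨1, by simp [hQ]⟩
  rw [Finset.mem_Icc] at ha
  have hpos := nn_pos ha.1
  have hex : ∃ q : ℕ, 1 ≤ q ∧ nn (q * be) < nn (a * be) := by
    obtain ⟨N, hN⟩ := exists_nat_one_div_lt hpos
    obtain ⟨k, hk, _, hk2⟩ := Real.exists_nat_abs_mul_sub_round_le be (Nat.succ_pos N)
    refine ⟨k, hk, ?_⟩
    unfold nn
    unfold nn at hN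
    refine lt_of_le_of_lt (hk2.trans ?_) hN
    apply one_div_le_one_div_of_le (by positivity)
    push_cast
    linarith
  classical
  set q := Nat.find hex with hq
  obtain ⟨hq1, hq2⟩ := Nat.find_spec hex
  rw [← hq] at hq1 hq2
  have hmin' : ∀ m : ℕ, 1 ≤ m → m < q → nn (a * be) ≤ nn (m * be) := by
    intro m hm hmq
    by_contra hcon
    push Not at hcon
    exact Nat.find_min hex hmq ⟨hm, hcon⟩
  have hQq : Q < q := by
    by_contra hcon
    push Not at hcon
    have := hmin q (Finset.mem_Icc.2 ⟨hq1, hcon⟩)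
    linarith
  refine ⟨q, hQq, by omega, fun m hm hmq => le_trans ?_ (hmin' m hm hmq)⟩
  -- the determinant
  have haq : a < q := by omega
  have haq' : (a : ℝ) < q := by exact_mod_cast haq
  have hq' : (1 : ℝ) ≤ q := by exact_mod_cast hq1
  have ha' : (1 : ℝ) ≤ a := by exact_mod_cast ha.1
  set s : ℝ := a * be - round ((a : ℝ) * be) with hs
  set t : ℝ := q * be - round ((q : ℝ) * be) with ht
  have hst : nn (a * be) = |s| := rfl
  have htt : nn (q * be) = |t| := rfl
  rw [hst] at hpos hq2 ⊢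
  rw [htt] at hq2
  have hz : ((round ((q : ℝ) * be) * a - round ((a : ℝ) * be) * q : ℤ) : ℝ) = s * q - t * a := by
    rw [hs, ht]
    push_cast
    ring
  have hne : round ((q : ℝ) * be) * (a : ℤ) - round ((a : ℝ) * be) * (q : ℤ) ≠ 0 := by
    intro h0
    rw [h0] at hz
    have h1 : s * q = t * a := by
      push_cast at hz
      linarith
    have h2 : |s| * q = |t| * a := by
      rw [← abs_of_pos (show (0 : ℝ) < q by linarith), ← abs_mul, h1, abs_mul,
        abs_of_pos (show (0 : ℝ) < a by linarith)]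
    have h3 : |t| * a ≤ |s| * a := by
      apply mul_le_mul_of_nonneg_right hq2.le (by linarith)
    have h4 : |s| * a < |s| * q := mul_lt_mul_of_pos_left haq' hpos
    linarith
  have h1 : (1 : ℝ) ≤ |s * q - t * a| := by
    rw [← hz]
    have := Int.one_le_abs hne
    exact_mod_cast this
  have h2 : |s * q - t * a| ≤ |s| * q + |t| * a := by
    refine (abs_sub _ _).trans ?_
    rw [abs_mul, abs_mul, abs_of_pos (show (0 : ℝ) < q by linarith),
      abs_of_pos (show (0 : ℝ) < a by linarith)]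
  have h3 : |t| * a ≤ |s| * q := by
    apply mul_le_mul hq2.le haq'.le (by linarith) hpos.le
  rw [div_le_iff₀ (by positivity)]
  linarith

theorem count_near (q : ℕ) (hq : Good q) (X : ℕ) :
    {l : ℕ | l ≤ X ∧ nn (l * be) < 1 / (4 * (q : ℝ))}.ncard ≤ X / q + 1 := by
  have hq0 : (0 : ℝ) < q := by exact_mod_cast hq.1
  rw [← Nat.card_coe_set_eq, ← Nat.card_fin (X / q + 1)]
  refine Nat.card_le_card_of_injective (fun l => ⟨l.1 / q, ?_⟩) ?_
  · have := Nat.div_le_div_right (c := q) l.2.1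
    omega
  · have key : ∀ l l' : ℕ, nn (l * be) < 1 / (4 * (q : ℝ)) → nn (l' * be) < 1 / (4 * (q : ℝ)) →
        l / q = l' / q → l ≤ l' → l = l' := by
      intro l l' h1 h2 h3 h4
      by_contra hne
      have h5 : l' - l < q := by
        have e1 := Nat.div_add_mod l q
        have e2 := Nat.div_add_mod l' q
        have e3 := Nat.mod_lt l' hq.1
        rw [h3] at e1
        omega
      have h6 := hq.2 (l' - l) (by omega) h5
      have h7 := nn_sub l l' h4
      have h8 : 1 / (2 * (q : ℝ)) = 1 / (4 * (q : ℝ)) + 1 / (4 * (q : ℝ)) := by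
        field_simp
        norm_num
      linarith
    rintro ⟨l, hl⟩ ⟨l', hl'⟩ h
    have h3 : l / q = l' / q := by
      have := congrArg Fin.val h
      exact this
    apply Subtype.ext
    rcases le_total l l' with h4 | h4
    · exact key l l' hl.2 hl'.2 h3 h4
    · exact (key l' l hl'.2 hl.2 h3.symm h4).symm

theorem odds_le (c : Finset ℤ) : odds c ≤ c.card := Finset.card_filter_le _ _

theorem len_count (q : ℕ) (hq : Good q) (X : ℕ) (hX : 1 ≤ X) :
    ((Len ∩ Set.Iic X).ncard : ℝ) ≤ 4 * q * Real.log (4 * q * X) + X / q + 2 := by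
  have hq0 : (1 : ℝ) ≤ q := by exact_mod_cast hq.1
  set e : ℝ := 1 / (4 * (q : ℝ)) with he
  have he0 : 0 < e := by positivity
  have he1 : e ≤ 1 := by
    rw [he, div_le_one (by positivity)]
    linarith
  obtain ⟨hfin, hcard⟩ := cyc_count X hX e he0 he1
  have hsub : Len ∩ Set.Iic X ⊆ (Finset.card '' (Cyc X e)) ∪
      ({l : ℕ | l ≤ X ∧ nn (l * be) < 1 / (4 * (q : ℝ))} ∪ {1}) := by
    rintro l ⟨⟨c, hc, rfl⟩, hl⟩
    by_cases h0 : c = {0}
    · right
      right
      rw [h0]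
      simp
    · by_cases hg : e ≤ gap c
      · left
        exact ⟨c, ⟨hc, h0, (odds_le c).trans hl, hg⟩, rfl⟩
      · right
        left
        push Not at hg
        exact ⟨hl, lt_of_le_of_lt (gap_ge c) hg⟩
  have hfin2 : {l : ℕ | l ≤ X ∧ nn (l * be) < 1 / (4 * (q : ℝ))}.Finite :=
    (Set.finite_Iic X).subset fun l hl => hl.1
  have h1 := Set.ncard_le_ncard hsub ((hfin.image _).union (hfin2.union (Set.finite_singleton 1)))
  have h2 := Set.ncard_union_le (Finset.card '' (Cyc X e))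
      ({l : ℕ | l ≤ X ∧ nn (l * be) < 1 / (4 * (q : ℝ))} ∪ {1})
  have h3 := Set.ncard_union_le {l : ℕ | l ≤ X ∧ nn (l * be) < 1 / (4 * (q : ℝ))} {1}
  have h4 := count_near q hq X
  have h5 := Set.ncard_image_le hfin (f := Finset.card)
  rw [Set.ncard_singleton] at h3
  have h6 : (Len ∩ Set.Iic X).ncard ≤ (Cyc X e).ncard + (X / q + 2) := by omega
  have h7 : ((Len ∩ Set.Iic X).ncard : ℝ) ≤ (Cyc X e).ncard + (((X / q : ℕ) : ℝ) + 2) := by
    exact_mod_cast h6
  have h8 : ((X / q : ℕ) : ℝ) ≤ (X : ℝ) / q := Nat.cast_div_le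
  have h9 : Real.log (X / e) / e = 4 * q * Real.log (4 * q * X) := by
    rw [he]
    have : (X : ℝ) / (1 / (4 * (q : ℝ))) = 4 * q * X := by field_simp
    rw [this]
    field_simp
  rw [h9] at hcard
  linarith

theorem density (η : ℝ) (hη : 0 < η) :
    ∃ X₀ : ℕ, ∀ X : ℕ, X₀ ≤ X → ((Len ∩ Set.Iic X).ncard : ℝ) ≤ η * X := by
  obtain ⟨Q, hQ⟩ := exists_nat_gt (3 / η)
  obtain ⟨q, hQq, hq⟩ := good_inf (Q + 1) (by omega)
  have hq0 : (1 : ℝ) ≤ q := by exact_mod_cast hq.1
  have hQq' : (Q : ℝ) < q := by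
    have : Q < q := by omega
    exact_mod_cast this
  have h1 : ∀ᶠ X : ℕ in Filter.atTop, 4 * q * Real.log (4 * q * X) ≤ η / 3 * X := by
    have h2 : Filter.Tendsto (fun X : ℕ => 4 * (q : ℝ) * X) Filter.atTop Filter.atTop :=
      Filter.Tendsto.const_mul_atTop (by positivity) tendsto_natCast_atTop_atTop
    have h3 := h2.eventually (Real.isLittleO_log_id_atTop.def
      (show 0 < η / (48 * (q : ℝ) ^ 2) by positivity))
    filter_upwards [h3, h2.eventually_ge_atTop 1] with X hX hX1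
    simp only [id, Real.norm_eq_abs] at hX
    rw [abs_of_nonneg (Real.log_nonneg hX1), abs_of_nonneg (by positivity)] at hX
    calc 4 * (q : ℝ) * Real.log (4 * q * X) ≤ 4 * q * (η / (48 * (q : ℝ) ^ 2) * (4 * q * X)) := by
          gcongr
      _ = η / 3 * X := by
          field_simp
          ring
  have h2 : ∀ᶠ X : ℕ in Filter.atTop, (2 : ℝ) ≤ η / 3 * X := by
    have : Filter.Tendsto (fun X : ℕ => η / 3 * (X : ℝ)) Filter.atTop Filter.atTop :=
      Filter.Tendsto.const_mul_atTop (by positivity) tendsto_natCast_atTop_atTop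
    exact this.eventually_ge_atTop 2
  obtain ⟨X₀, hX₀⟩ := Filter.eventually_atTop.1 ((h1.and h2).and (Filter.eventually_ge_atTop 1))
  refine ⟨X₀, fun X hX => ?_⟩
  obtain ⟨⟨h3, h4⟩, h5⟩ := hX₀ X hX
  have h6 := len_count q hq X h5
  have h7 : (X : ℝ) / q ≤ η / 3 * X := by
    rw [div_le_iff₀ (by linarith)]
    have h8 : 3 < η * q := by
      rw [div_lt_iff₀ hη] at hQ
      nlinarith
    have h9 : (0 : ℝ) ≤ X := Nat.cast_nonneg X
    nlinarith
  linarith

theorem sqrt_bound (X₀ : ℕ) : ∃ X : ℕ, X₀ ≤ X ∧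
    ((Len ∩ Set.Iic X).ncard : ℝ) ≤ 12 * (Real.sqrt X * Real.log X) := by
  obtain ⟨q, hQq, hq⟩ := good_inf (X₀ + 1) (by omega)
  have hq2 : 2 ≤ q := by omega
  have hq2' : (2 : ℝ) ≤ q := by exact_mod_cast hq2
  refine ⟨q ^ 2, by nlinarith, ?_⟩
  have h1 := len_count q hq (q ^ 2) (Nat.one_le_pow _ _ (by omega))
  have h2 : Real.sqrt ((q ^ 2 : ℕ) : ℝ) = q := by
    push_cast
    exact Real.sqrt_sq (by linarith)
  have h3 : Real.log ((q ^ 2 : ℕ) : ℝ) = 2 * Real.log q := by
    push_cast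
    rw [Real.log_pow]
    push_cast
    ring
  have hl2 : 0.69 < Real.log 2 := by
    have := Real.log_two_gt_d9
    linarith
  have hlq : Real.log 2 ≤ Real.log q := Real.log_le_log (by norm_num) hq2'
  have h4 : Real.log (4 * q * ((q ^ 2 : ℕ) : ℝ)) ≤ 5 * Real.log q := by
    have e5 : 5 * Real.log q = Real.log ((q : ℝ) ^ 5) := by
      rw [Real.log_pow]
      norm_num
    rw [e5]
    apply Real.log_le_log (by positivity)
    push_cast
    have : (4 : ℝ) ≤ (q : ℝ) ^ 2 := by nlinarith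
    have h5 : (q : ℝ) ^ 5 = (q : ℝ) ^ 2 * (q : ℝ) ^ 3 := by ring
    rw [h5]
    have h6 : (4 : ℝ) * q * (q : ℝ) ^ 2 = 4 * (q : ℝ) ^ 3 := by ring
    rw [h6]
    gcongr
  have h5 : ((q ^ 2 : ℕ) : ℝ) / q = q := by
    push_cast
    field_simp
  rw [h5] at h1
  rw [h2, h3]
  have h6 : 4 * (q : ℝ) * Real.log (4 * q * ((q ^ 2 : ℕ) : ℝ)) ≤ 4 * q * (5 * Real.log q) := by
    gcongr
  have h7 : (q : ℝ) ≤ 1.45 * (q * Real.log q) := by nlinarith
  nlinarith

theorem all_bound (X₀ : ℕ) : ∃ X : ℕ, X₀ ≤ X ∧ {c | IsCycle c ∧ c.card ≤ X}.Finite ∧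
    ({c | IsCycle c ∧ c.card ≤ X}.ncard : ℝ) ≤ 13 * (X * Real.log X) := by
  obtain ⟨q, hQq, hq⟩ := good_inf (X₀ + 2) (by omega)
  obtain ⟨X, rfl⟩ : ∃ X, q = X + 1 := ⟨q - 1, by omega⟩
  have hX2 : 2 ≤ X := by omega
  have hX2' : (2 : ℝ) ≤ X := by exact_mod_cast hX2
  refine ⟨X, by omega, ?_⟩
  set e : ℝ := 1 / (2 * ((X + 1 : ℕ) : ℝ)) with he
  have he0 : 0 < e := by positivity
  have he1 : e ≤ 1 := by
    rw [he, div_le_one (by positivity)]
    push_cast
    linarith
  obtain ⟨hfin, hcard⟩ := cyc_count X (by omega) e he0 he1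
  have hsub : {c | IsCycle c ∧ c.card ≤ X} ⊆ Cyc X e ∪ {{0}} := by
    rintro c ⟨hc, hcX⟩
    by_cases h0 : c = {0}
    · right
      exact h0
    · left
      refine ⟨hc, h0, (odds_le c).trans hcX, ?_⟩
      refine le_trans (hq.2 c.card ?_ (by omega)) (gap_ge c)
      exact Finset.card_pos.2 (cyc_nonempty hc)
  have hfin' := hfin.union (Set.finite_singleton ({0} : Finset ℤ))
  refine ⟨hfin'.subset hsub, ?_⟩
  have h1 := (Set.ncard_le_ncard hsub hfin').trans (Set.ncard_union_le _ _)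
  rw [Set.ncard_singleton] at h1
  have h2 : (({c | IsCycle c ∧ c.card ≤ X} : Set (Finset ℤ)).ncard : ℝ) ≤ (Cyc X e).ncard + 1 := by
    exact_mod_cast h1
  have h3 : Real.log (X / e) / e = 2 * (X + 1) * Real.log (2 * (X + 1) * X) := by
    rw [he]
    push_cast
    have : (X : ℝ) / (1 / (2 * ((X : ℝ) + 1))) = 2 * (X + 1) * X := by field_simp
    rw [this]
    field_simp
  rw [h3] at hcard
  have hl2 : 0.69 < Real.log 2 := by
    have := Real.log_two_gt_d9
    linarith
  have hlX : Real.log 2 ≤ Real.log X := Real.log_le_log (by norm_num) hX2'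
  have h4 : Real.log (2 * (X + 1) * X) ≤ 4 * Real.log X := by
    have e5 : 4 * Real.log X = Real.log ((X : ℝ) ^ 4) := by
      rw [Real.log_pow]
      norm_num
    rw [e5]
    apply Real.log_le_log (by positivity)
    have h5 : 2 * ((X : ℝ) + 1) ≤ (X : ℝ) ^ 3 := by
      nlinarith [sq_nonneg ((X : ℝ) - 2), mul_nonneg (sub_nonneg.2 hX2') (sq_nonneg (X : ℝ))]
    calc 2 * ((X : ℝ) + 1) * X ≤ (X : ℝ) ^ 3 * X := by gcongr
      _ = (X : ℝ) ^ 4 := by ring
  have h5 : 2 * ((X : ℝ) + 1) * Real.log (2 * (X + 1) * X) ≤ 2 * (X + 1) * (4 * Real.log X) := by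
    gcongr
  nlinarith

end Pool.Agent.Helper21.FX
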